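import Pool.Agent.H37.CNV.Stmts

/-!
# Row VSU: `N = q (q - 1)` for `SU_3(q)`
-/

set_option autoImplicit false

namespace Pool.CND

open Finset Matrix

theorem vsu_thm (hTAM : S_TAM) (hVGW : S_VGW) (hVZC : S_VZC) (hNGD : S_NGD) (hUNP : S_UNP) :
    S_VSU := by
  intro p k F _ _ _ f q σ hp hch hf hq hF hσ
  have hq2 : 2 ≤ q := by
    rw [hq]
    exact le_trans hp.two_le (Nat.le_self_pow (by omega) p)
  obtain ⟨hfin, -⟩ := hVZC p F f q σ hp hf hq hF hσ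
  have hpos : 1 ≤ q * (q - 1) := Nat.mul_pos (by omega) (by omega)
  refine Nat.dvd_antisymm (hNGD k (SU3 σ) (q * (q - 1)) hpos ?_) (hUNP p k F f q σ hp hch hf hq hF hσ)
  intro c hc
  rcases hTAM p k (SU3 σ) c hp hch hc with h0 | ⟨W, I, C, n, hCW, hWI, hC, hW, hWn, hCn, hcen, hpn,
    hI, hall⟩
  · exact ⟨0, by rw [h0, mul_zero, Int.cast_zero]⟩
  · obtain ⟨⟨A, d, hAW, hAc, hdq, hWA⟩, hg⟩ :=
      hVGW p F f q σ hp hf hq hF hσ W I C n hCW hWI hC hW hWn hCn hcen hpn hI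
    obtain ⟨z, hz⟩ := hall A d (q - 1) hAW hAc hWA hg
    obtain ⟨s, hs⟩ := hdq
    refine ⟨s * z, ?_⟩
    have h1 : ((q * (q - 1) : ℕ) : ℚ) = s * ((p ^ d * (q - 1) : ℕ) : ℚ) := by
      have h2 : q * (q - 1) = s * (p ^ d * (q - 1)) := by
        calc q * (q - 1) = (p ^ d * s) * (q - 1) := by rw [← hs]
          _ = s * (p ^ d * (q - 1)) := by ring
      rw [h2, Nat.cast_mul]
    rw [h1, mul_assoc, hz]
    push_cast
    rfl

end Pool.CND
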